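import Pool.Agent.Q57.QM.Stm4
import Pool.Agent.Q38.QP.FORMS
import Pool.Agent.Q247.QP.Form3J

set_option autoImplicit false

/-! # Step R5: the local p-adic statement for quadratic forms in four variables -/

namespace Pool.Agent.Q38.QM

open MeasureTheory MvPolynomial Topology
open Pool.Agent.W427.SMC Pool.Agent.Y230.PT Pool.Agent.Y230.PS
open Pool.Agent.Q57.QP (LPF LP nrm mS Siz StDiff StFree StScale StCone StMul StAff StX1)
open Pool.Agent.Q57.QM (StQ3 StRoot4 StQ4)
open Pool.Agent.Y229 (IsLocalBI sf_equiv exists_fe SF)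
open Pool.Agent.Q57.MD (HT sf_koszul sf_rel_root sf_of_transf sf_mulF OnlyTrivial aeval_HT sf_cone_pts)
open Pool.Agent.Q57.MC (Same frac transfer_chart sf_iff mulF)
open Pool.Agent.Q38.QP
open Pool.Agent.Q247.QP (siz_smul LP.mono' norm_smul')
open scoped ENNReal

attribute [local instance] msK bsK msZ bsZ

section algebra

variable {K : Type} [Field K]

/-- the total degree after a substitution of polynomials of degree one -/
theorem td_aeval {σ τ : Type} [Fintype σ] (u : σ → MvPolynomial τ K)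
    (hu : ∀ i, (u i).totalDegree ≤ 1) (F : MvPolynomial σ K) {d : ℕ} (hF : F.totalDegree ≤ d) :
    (aeval u F).totalDegree ≤ d := by
  classical
  rw [aeval_def, eval₂_eq']
  refine (totalDegree_finsetSum _ _).trans (Finset.sup_le fun m hm => ?_)
  refine (totalDegree_mul _ _).trans ?_
  rw [algebraMap_eq, totalDegree_C, zero_add]
  refine (totalDegree_finsetProd _ _).trans ?_
  have h1 : ∀ i, (u i ^ m i).totalDegree ≤ m i := fun i =>
    (totalDegree_pow _ _).trans (by
      calc m i * (u i).totalDegree ≤ m i * 1 := Nat.mul_le_mul_left _ (hu i)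
        _ = m i := mul_one _)
  refine (Finset.sum_le_sum fun i _ => h1 i).trans ?_
  have h2 : (m.sum fun _ e => e) ≤ F.totalDegree := le_totalDegree hm
  rw [Finsupp.sum_fintype _ _ (by simp)] at h2
  exact h2.trans hF

theorem td_lin {n c : ℕ} (M : Matrix (Fin n) (Fin c) K) (i : Fin n) :
    (lin M i).totalDegree ≤ 1 := by
  unfold lin
  refine (totalDegree_finsetSum _ _).trans (Finset.sup_le fun k _ => ?_)
  refine (totalDegree_mul _ _).trans ?_
  rw [totalDegree_C, zero_add]
  exact (totalDegree_X k).le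

/-- a symmetric bilinear form with a vector in its kernel -/
theorem bil_shift {S : Type} [CommRing S] {n : ℕ} (q : Fin n → Fin n → S)
    (hs : ∀ i k, q i k = q k i) (a b : Fin n → S) (h : ∀ i, ∑ k, q i k * b k = 0) :
    ∑ i, ∑ k, q i k * ((a i + b i) * (a k + b k)) = ∑ i, ∑ k, q i k * (a i * a k) := by
  have h1 : ∑ i, ∑ k, q i k * ((a i + b i) * (a k + b k)) = ∑ i, ∑ k, q i k * (a i * a k) +
      ∑ i, (a i + b i) * ∑ k, q i k * b k + ∑ k, a k * ∑ i, q k i * b i := by
    have h2 : ∑ k, a k * ∑ i, q k i * b i = ∑ i, ∑ k, a k * (q k i * b i) := by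
      rw [Finset.sum_comm]
      exact Finset.sum_congr rfl fun k _ => Finset.mul_sum _ _ _
    rw [h2, ← Finset.sum_add_distrib, ← Finset.sum_add_distrib]
    refine Finset.sum_congr rfl fun i _ => ?_
    rw [Finset.mul_sum, ← Finset.sum_add_distrib, ← Finset.sum_add_distrib]
    refine Finset.sum_congr rfl fun k _ => ?_
    rw [hs k i]
    ring
  rw [h1]
  simp only [h, mul_zero, Finset.sum_const_zero, add_zero]

/-- **A vector in the kernel**: the form does not depend on the last coordinate. -/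
theorem quad_kerN [CharZero K] {n : ℕ} (f : MvPolynomial (Fin (n + 1)) K)
    (hf : f.IsHomogeneous 2) (M : Matrix (Fin (n + 1)) (Fin (n + 1)) K)
    (hv : (qm f).mulVec (fun i => M i (Fin.last n)) = 0) :
    aeval (lin M) f = rename (Fin.castSucc : Fin n → Fin (n + 1))
      (aeval (lin (Matrix.of fun i k => M i (Fin.castSucc k) :
        Matrix (Fin (n + 1)) (Fin n) K)) f) := by
  have hc : (rename (Fin.castSucc : Fin n → Fin (n + 1)) : MvPolynomial (Fin n) K →ₐ[K] _)
      (aeval (lin (Matrix.of fun i k => M i (Fin.castSucc k) :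
        Matrix (Fin (n + 1)) (Fin n) K)) f) =
      aeval (fun i => rename (Fin.castSucc : Fin n → Fin (n + 1))
        (lin (Matrix.of fun i k => M i (Fin.castSucc k) :
          Matrix (Fin (n + 1)) (Fin n) K) i)) f := by
    rw [← comp_aeval_apply]
  rw [hc, quad_aeval f hf, quad_aeval f hf]
  have h1 : ∀ i, lin M i = rename (Fin.castSucc : Fin n → Fin (n + 1))
      (lin (Matrix.of fun i k => M i (Fin.castSucc k) : Matrix (Fin (n + 1)) (Fin n) K) i) +
      C (M i (Fin.last n)) * X (Fin.last n) := by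
    intro i
    rw [rename_lin, lin, Fin.sum_univ_castSucc]
    rfl
  simp only [h1]
  refine bil_shift (fun i k => algebraMap K (MvPolynomial (Fin (n + 1)) K) (qm f i k))
    (fun i k => by rw [(qm_symm f).apply k i]) _
    (fun i => C (M i (Fin.last n)) * X (Fin.last n)) fun i => ?_
  have h2 := congrArg (C : K → MvPolynomial (Fin (n + 1)) K) (congrFun hv i)
  simp only [Matrix.mulVec, dotProduct, Pi.zero_apply, map_zero, map_sum, map_mul] at h2
  simp only [algebraMap_eq, ← mul_assoc]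
  rw [← Finset.sum_mul, h2, zero_mul]

/-- a regular matrix with a given last column -/
theorem exists_colN {n : ℕ} (v : Fin (n + 1) → K) (hv : v ≠ 0) :
    ∃ M : Matrix (Fin (n + 1)) (Fin (n + 1)) K, M.det ≠ 0 ∧ (fun i => M i (Fin.last n)) = v := by
  classical
  obtain ⟨i₀, hi₀⟩ : ∃ i, v i ≠ 0 := by
    by_contra h
    push Not at h
    exact hv (funext h)
  set s := Equiv.swap i₀ (Fin.last n) with hs
  refine ⟨Matrix.of fun i k => if k = Fin.last n then v i else if i = s k then 1 else 0, ?_, ?_⟩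
  · intro hdet
    obtain ⟨w, hw0, hw⟩ := Matrix.exists_mulVec_eq_zero_iff.2 hdet
    have hrow : ∀ i, v i * w (Fin.last n) + (if s i = Fin.last n then 0 else w (s i)) = 0 := by
      intro i
      have h1 := congrFun hw i
      simp only [Matrix.mulVec, dotProduct, Matrix.of_apply, Pi.zero_apply] at h1
      refine Eq.trans ?_ h1
      rw [← Finset.add_sum_erase _ _ (Finset.mem_univ (Fin.last n)), if_pos rfl]
      congr 1
      have h2 : ∀ x ∈ Finset.univ.erase (Fin.last n), (if x = Fin.last n then v i else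
          if i = s x then 1 else 0) * w x = if s i = x then w x else 0 := by
        intro x hx
        rw [Finset.mem_erase] at hx
        rw [if_neg hx.1]
        have h3 : i = s x ↔ s i = x := by
          constructor
          · rintro rfl
            rw [hs, Equiv.swap_apply_self]
          · rintro rfl
            rw [hs, Equiv.swap_apply_self]
        by_cases h4 : s i = x
        · rw [if_pos h4, if_pos (h3.2 h4), one_mul]
        · rw [if_neg h4, if_neg (fun h => h4 (h3.1 h)), zero_mul]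
      rw [Finset.sum_congr rfl h2, Finset.sum_ite_eq]
      by_cases h5 : s i = Fin.last n
      · rw [if_pos h5, if_neg]
        rw [h5]
        simp
      · rw [if_neg h5, if_pos]
        simp [h5]
    have hl : w (Fin.last n) = 0 := by
      have h1 := hrow i₀
      rw [if_pos (by rw [hs, Equiv.swap_apply_left]), add_zero] at h1
      exact (mul_eq_zero.1 h1).resolve_left hi₀
    apply hw0
    funext k
    by_cases hk : k = Fin.last n
    · rw [hk, hl]
      rfl
    · have h1 := hrow (s k)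
      have h2 : s (s k) = k := by
        rw [hs, Equiv.swap_apply_self]
      rw [h2, if_neg hk, hl, mul_zero, zero_add] at h1
      exact h1
  · funext i
    simp

end algebra

section chart

/-- the family in the chart `x_i = 1`, translated to the origin -/
noncomputable def dhN {K : Type} [Field K] {n : ℕ} (i : Fin (n + 1)) (q : Fin n → K)
    (F : MvPolynomial (Fin (n + 1)) K) : MvPolynomial (Fin n) K :=
  aeval (Fin.insertNth i (1 : MvPolynomial (Fin n) K) (fun t => X t + C (q t)) :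
    Fin (n + 1) → MvPolynomial (Fin n) K) F

theorem td_dhN {K : Type} [Field K] {n : ℕ} (i : Fin (n + 1)) (q : Fin n → K)
    (F : MvPolynomial (Fin (n + 1)) K) {d : ℕ} (hF : F.totalDegree ≤ d) :
    (dhN i q F).totalDegree ≤ d := by
  refine td_aeval _ (fun l => ?_) F hF
  refine Fin.succAboveCases i ?_ (fun t => ?_) l
  · rw [Fin.insertNth_apply_same, totalDegree_one]
    exact Nat.zero_le _
  · rw [Fin.insertNth_apply_succAbove]
    refine (totalDegree_add _ _).trans ?_
    rw [totalDegree_X, totalDegree_C]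
    simp

lemma eval_dhN {K : Type} [Field K] {n : ℕ} (i : Fin (n + 1)) (q : Fin n → K)
    (F : MvPolynomial (Fin (n + 1)) K) (y : Fin n → K) :
    eval y (dhN i q F) =
      eval (Fin.insertNth i (1 : K) (fun t => y t + q t) : Fin (n + 1) → K) F := by
  unfold dhN
  rw [MvPolynomial.aeval_def, MvPolynomial.eval_eval₂]
  congr 1
  · ext; simp
  · funext l
    refine Fin.succAboveCases i ?_ (fun t => ?_) l
    · simp
    · simp

lemma map_dhN {K : Type} [Field K] {n : ℕ} (φ : K →+* ℂ) (i : Fin (n + 1)) (q : Fin n → K)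
    (F : MvPolynomial (Fin (n + 1)) K) :
    map φ (dhN i q F) = dhN i (fun t => φ (q t)) (map φ F) := by
  unfold dhN
  rw [MvPolynomial.aeval_def, MvPolynomial.aeval_def, MvPolynomial.algebraMap_eq,
    MvPolynomial.algebraMap_eq, MvPolynomial.map_eval₂]
  congr 1
  funext l
  refine Fin.succAboveCases i ?_ (fun t => ?_) l
  · simp
  · simp

end chart

section roots

open Pool.Agent.Q57.MC Pool.Agent.Q57.MD

variable {n : ℕ}

/-- the numerators of the coordinates -/
noncomputable def nuN (i : Fin (n + 1)) (q : Fin n → ℂ) (t : Fin n) :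
    MvPolynomial (Fin (n + 1)) ℂ :=
  X (i.succAbove t) - C (q t) * X i

lemma ht_univN {F : MvPolynomial (Fin n) ℂ} {d : ℕ} (hF : F.IsHomogeneous d) :
    HT (Finset.univ : Finset (Fin n)) F d := by
  have h : (fun l : Fin n => if l ∈ (Finset.univ : Finset (Fin n)) then 1 else 0) =
      (1 : Fin n → ℕ) := by
    funext l; simp
  unfold HT
  rw [h]
  exact hF

lemma frac_dhN (i : Fin (n + 1)) (q : Fin n → ℂ) {d : ℕ} (F : MvPolynomial (Fin (n + 1)) ℂ)
    (hF : F.IsHomogeneous d) :
    frac (nuN i q) (X i) (dhN i q F) =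
      (IsLocalization.Away.invSelf (S := Localization.Away (X i : MvPolynomial (Fin (n + 1)) ℂ))
        (X i : MvPolynomial (Fin (n + 1)) ℂ)) ^ d *
      algebraMap (MvPolynomial (Fin (n + 1)) ℂ)
        (Localization.Away (X i : MvPolynomial (Fin (n + 1)) ℂ)) F := by
  set L := Localization.Away (X i : MvPolynomial (Fin (n + 1)) ℂ) with hL
  set v : L := IsLocalization.Away.invSelf (X i : MvPolynomial (Fin (n + 1)) ℂ) with hv
  have hXv : algebraMap (MvPolynomial (Fin (n + 1)) ℂ) L (X i) * v = 1 :=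
    IsLocalization.Away.mul_invSelf _
  have h1 : frac (nuN i q) (X i) (dhN i q F) =
      aeval (fun l => v * algebraMap (MvPolynomial (Fin (n + 1)) ℂ) L (X l)) F := by
    unfold frac dhN
    rw [← AlgHom.comp_apply, MvPolynomial.comp_aeval]
    congr 2
    funext l
    refine Fin.succAboveCases i ?_ (fun t => ?_) l
    · rw [Fin.insertNth_apply_same, map_one, mul_comm, hXv]
    · rw [Fin.insertNth_apply_succAbove, map_add, aeval_X, aeval_C, nuN, map_sub, map_mul]
      have h2 : algebraMap ℂ L (q t) = algebraMap (MvPolynomial (Fin (n + 1)) ℂ) L (C (q t)) := rfl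
      rw [h2]
      linear_combination (-(algebraMap (MvPolynomial (Fin (n + 1)) ℂ) L (C (q t)))) * hXv
  rw [h1]
  have hT : HT (Finset.univ : Finset (Fin (n + 1))) F d := ht_univN hF
  have h3 := aeval_HT hT (fun l => algebraMap (MvPolynomial (Fin (n + 1)) ℂ) L (X l)) v
  simp only [Finset.mem_univ, if_true] at h3
  rw [h3]
  congr 1
  have h4 : aeval (fun l => algebraMap (MvPolynomial (Fin (n + 1)) ℂ) L (X l)) =
      (Algebra.ofId (MvPolynomial (Fin (n + 1)) ℂ) L).restrictScalars ℂ := by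
    apply MvPolynomial.algHom_ext
    intro l
    rw [aeval_X]
    rfl
  rw [h4]
  rfl

lemma same_dhN {r : ℕ} (f : Fin r → MvPolynomial (Fin (n + 1)) ℂ) {d : ℕ}
    (hf : ∀ j, (f j).IsHomogeneous d) (i : Fin (n + 1)) (q : Fin n → ℂ) :
    Same f (fun j => dhN i q (f j)) (nuN i q) (X i) := by
  unfold Same
  set L := Localization.Away (X i : MvPolynomial (Fin (n + 1)) ℂ) with hL
  set v : L := IsLocalization.Away.invSelf (X i : MvPolynomial (Fin (n + 1)) ℂ) with hv
  have hXv : algebraMap (MvPolynomial (Fin (n + 1)) ℂ) L (X i) * v = 1 :=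
    IsLocalization.Away.mul_invSelf _
  have h1 : ∀ j, frac (nuN i q) (X i) (dhN i q (f j)) =
      v ^ d * algebraMap (MvPolynomial (Fin (n + 1)) ℂ) L (f j) := fun j => frac_dhN i q (f j) (hf j)
  refine le_antisymm ?_ ?_
  · rw [Ideal.span_le]
    rintro _ ⟨j, rfl⟩
    have h2 : algebraMap (MvPolynomial (Fin (n + 1)) ℂ) L (f j) =
        (algebraMap (MvPolynomial (Fin (n + 1)) ℂ) L (X i)) ^ d *
          frac (nuN i q) (X i) (dhN i q (f j)) := by
      rw [h1, ← mul_assoc, ← mul_pow, hXv, one_pow, one_mul]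
    rw [SetLike.mem_coe]
    simp only
    rw [h2]
    exact Ideal.mul_mem_left _ _ (Ideal.subset_span ⟨j, rfl⟩)
  · rw [Ideal.span_le]
    rintro _ ⟨j, rfl⟩
    rw [SetLike.mem_coe]
    simp only
    rw [h1]
    exact Ideal.mul_mem_left _ _ (Ideal.subset_span ⟨j, rfl⟩)

lemma dhN_ne (i : Fin (n + 1)) (q : Fin n → ℂ) {d : ℕ} (F : MvPolynomial (Fin (n + 1)) ℂ)
    (hF : F.IsHomogeneous d) (h : F ≠ 0) : dhN i q F ≠ 0 := by
  intro h0
  have h1 := frac_dhN i q F hF
  rw [h0] at h1
  unfold frac at h1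
  rw [map_zero] at h1
  set L := Localization.Away (X i : MvPolynomial (Fin (n + 1)) ℂ) with hL
  set v : L := IsLocalization.Away.invSelf (X i : MvPolynomial (Fin (n + 1)) ℂ) with hv
  have hXv : algebraMap (MvPolynomial (Fin (n + 1)) ℂ) L (X i) * v = 1 :=
    IsLocalization.Away.mul_invSelf _
  have h2 : algebraMap (MvPolynomial (Fin (n + 1)) ℂ) L F = 0 := by
    have h3 : algebraMap (MvPolynomial (Fin (n + 1)) ℂ) L F =
        (algebraMap (MvPolynomial (Fin (n + 1)) ℂ) L (X i)) ^ d *
          (v ^ d * algebraMap (MvPolynomial (Fin (n + 1)) ℂ) L F) := by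
      rw [← mul_assoc, ← mul_pow, hXv, one_pow, one_mul]
    rw [h3, ← h1, mul_zero]
  apply h
  have h4 : Function.Injective (algebraMap (MvPolynomial (Fin (n + 1)) ℂ) L) :=
    IsLocalization.injective L (M := Submonoid.powers (X i : MvPolynomial (Fin (n + 1)) ℂ))
      (powers_le_nonZeroDivisors_of_noZeroDivisors (X_ne_zero i))
  exact (map_eq_zero_iff _ h4).1 h2

/-- roots of the charts are roots at the point and at the origin -/
theorem sf_formN {r : ℕ} (f : Fin r → MvPolynomial (Fin (n + 1)) ℂ) {d : ℕ}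
    (hf : ∀ j, (f j).IsHomogeneous d) (hne : ∃ j, f j ≠ 0) (i : Fin (n + 1))
    (P : Fin (n + 1) → ℂ) (hP : P i ≠ 0) (α : ℂ)
    (h : SF (fun j => dhN i (fun t => P (i.succAbove t) / P i) (f j)) 0 α) :
    SF f P α ∧ SF f 0 α := by
  classical
  set q : Fin n → ℂ := fun t => P (i.succAbove t) / P i with hq
  have hne' : ∃ j, dhN i q (f j) ≠ 0 := by
    obtain ⟨j, hj⟩ := hne
    exact ⟨j, dhN_ne i q (f j) (hf j) hj⟩
  have hT : Transf f (fun j => dhN i q (f j)) P := by
    refine transfer_chart f (fun j => dhN i q (f j)) (nuN i q) i.succAbove (X i) P ?_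
      (same_dhN f hf i q) (fun t => ?_) ?_
    · rw [eval_X]; exact hP
    · rw [nuN, map_sub, map_mul, eval_X, eval_X, eval_C, hq]
      simp only
      rw [div_mul_cancel₀ _ hP, sub_self]
    · have h1 : (Matrix.of fun u t : Fin n => eval P (pderiv (i.succAbove u) (nuN i q t))) = 1 := by
        ext u t
        rw [Matrix.of_apply, nuN, map_sub, pderiv_C_mul, pderiv_X_of_ne (Fin.succAbove_ne i u).symm,
          mul_zero, sub_zero, pderiv_X, Matrix.one_apply]
        by_cases hut : u = t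
        · rw [if_pos hut, hut, Pi.single_eq_same, map_one]
        · rw [if_neg hut, Pi.single_eq_of_ne, map_zero]
          exact fun h => hut (Fin.succAbove_right_injective h).symm
      rw [h1, Matrix.det_one]
      exact one_ne_zero
  refine ⟨sf_of_transf f (fun j => dhN i q (f j)) P hT hne' α ((sf_iff _ hne' α).1 h), ?_⟩
  exact sf_cone_pts Finset.univ f d (fun j => ht_univN (hf j)) (fun j => dhN i q (f j)) P hT
    (fun l hl => absurd (Finset.mem_univ l) hl) hne' α ((sf_iff _ hne' α).1 h)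

end roots

section main

variable {p : ℕ} [Fact p.Prime] {n : ℕ}

/-- the coordinates near `P` -/
noncomputable def gN (i : Fin (n + 1)) (P : Fin (n + 1) → ℚ_[p]) (t : Fin n)
    (x : Fin (n + 1) → ℚ_[p]) : ℚ_[p] :=
  x (i.succAbove t) * (x i)⁻¹ - P (i.succAbove t) / P i

/-- their derivatives at `P` -/
noncomputable def lN (i : Fin (n + 1)) (P : Fin (n + 1) → ℚ_[p]) (t : Fin n) :
    (Fin (n + 1) → ℚ_[p]) →L[ℚ_[p]] ℚ_[p] :=
  P (i.succAbove t) • ((-(P i ^ 2)⁻¹) •
    (ContinuousLinearMap.proj i : (Fin (n + 1) → ℚ_[p]) →L[ℚ_[p]] ℚ_[p])) +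
  (P i)⁻¹ • (ContinuousLinearMap.proj (i.succAbove t) : (Fin (n + 1) → ℚ_[p]) →L[ℚ_[p]] ℚ_[p])

lemma gN_deriv (i : Fin (n + 1)) (P : Fin (n + 1) → ℚ_[p]) (hP : P i ≠ 0) (t : Fin n) :
    HasStrictFDerivAt (gN i P t) (lN i P t) P := by
  have h1 : HasStrictFDerivAt (fun x : Fin (n + 1) → ℚ_[p] => x (i.succAbove t))
      (ContinuousLinearMap.proj (i.succAbove t) : (Fin (n + 1) → ℚ_[p]) →L[ℚ_[p]] ℚ_[p]) P :=
    hasStrictFDerivAt_apply _ _
  have h2 : HasStrictFDerivAt (fun x : Fin (n + 1) → ℚ_[p] => x i)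
      (ContinuousLinearMap.proj i : (Fin (n + 1) → ℚ_[p]) →L[ℚ_[p]] ℚ_[p]) P :=
    hasStrictFDerivAt_apply _ _
  have h3 : HasStrictFDerivAt (fun x : Fin (n + 1) → ℚ_[p] => (x i)⁻¹)
      ((-(P i ^ 2)⁻¹) • (ContinuousLinearMap.proj i : (Fin (n + 1) → ℚ_[p]) →L[ℚ_[p]] ℚ_[p])) P :=
    (hasStrictDerivAt_inv hP).comp_hasStrictFDerivAt P h2
  exact (h1.mul h3).sub_const _

lemma lN_det (i : Fin (n + 1)) (P : Fin (n + 1) → ℚ_[p]) (hP : P i ≠ 0) :
    (Matrix.of fun u t : Fin n => lN i P t (Pi.single (i.succAbove u) 1)).det ≠ 0 := by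
  have h1 : (Matrix.of fun u t : Fin n => lN i P t (Pi.single (i.succAbove u) 1)) =
      (P i)⁻¹ • (1 : Matrix (Fin n) (Fin n) ℚ_[p]) := by
    ext u t
    rw [Matrix.of_apply, lN, Matrix.smul_apply, Matrix.one_apply]
    simp only [ContinuousLinearMap.add_apply, ContinuousLinearMap.smul_apply,
      ContinuousLinearMap.proj_apply, smul_eq_mul]
    rw [Pi.single_eq_of_ne (Fin.succAbove_ne i u).symm, mul_zero, mul_zero, zero_add]
    congr 1
    by_cases hut : u = t
    · rw [if_pos hut, hut, Pi.single_eq_same]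
    · rw [if_neg hut, Pi.single_eq_of_ne]
      exact fun h => hut (Fin.succAbove_right_injective h).symm
  rw [h1, Matrix.det_smul, Matrix.det_one, mul_one]
  exact pow_ne_zero _ (inv_ne_zero hP)

lemma near_norm (i : Fin (n + 1)) (P : Fin (n + 1) → ℚ_[p]) (hP : P i ≠ 0) :
    ∀ᶠ x : Fin (n + 1) → ℚ_[p] in 𝓝 P, ‖x i‖ = ‖P i‖ := by
  have h1 : ∀ᶠ x : Fin (n + 1) → ℚ_[p] in 𝓝 P, ‖x i - P i‖ < ‖P i‖ := by
    have hc : Continuous (fun x : Fin (n + 1) → ℚ_[p] => ‖x i - P i‖) :=
      ((continuous_apply i).sub continuous_const).norm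
    refine (hc.tendsto P).eventually_lt_const ?_
    simpa using hP
  refine h1.mono fun x hx => ?_
  have h2 : x i = P i + (x i - P i) := by ring
  rw [h2, IsUltrametricDist.norm_add_eq_max_of_norm_ne_norm hx.ne']
  exact max_eq_left hx.le

/-- the family of the chart -/
noncomputable def hN {r : ℕ} (i : Fin (n + 1)) (P : Fin (n + 1) → ℚ_[p])
    (f : Fin r → MvPolynomial (Fin (n + 1)) ℚ_[p]) (j : Fin r) : MvPolynomial (Fin n) ℚ_[p] :=
  dhN i (fun t => P (i.succAbove t) / P i) (f j)

theorem map_hN {r : ℕ} (φ : ℚ_[p] →+* ℂ) (i : Fin (n + 1)) (P : Fin (n + 1) → ℚ_[p])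
    (f : Fin r → MvPolynomial (Fin (n + 1)) ℚ_[p]) : (fun j => map φ (hN i P f j)) =
      fun j => dhN i (fun t => (fun l => φ (P l)) (i.succAbove t) / (fun l => φ (P l)) i)
        (map φ (f j)) := by
  funext j
  unfold hN
  rw [map_dhN]
  simp only [map_div₀]

theorem hN_ne {r : ℕ} (φ : ℚ_[p] →+* ℂ) (i : Fin (n + 1)) (P : Fin (n + 1) → ℚ_[p])
    (f : Fin r → MvPolynomial (Fin (n + 1)) ℚ_[p]) {d : ℕ} (hf : ∀ j, (f j).IsHomogeneous d)
    (hne : ∃ j, f j ≠ 0) : ∃ j, hN i P f j ≠ 0 := by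
  obtain ⟨j, hj⟩ := hne
  refine ⟨j, fun h0 => ?_⟩
  have h1 : map φ (f j) ≠ 0 := fun h => hj ((map_eq_zero_iff _ (map_injective φ φ.injective)).1 h)
  refine dhN_ne i (fun t => φ (P (i.succAbove t) / P i)) (map φ (f j)) ((hf j).map φ) h1 ?_
  rw [← map_dhN φ i (fun t => P (i.succAbove t) / P i) (f j)]
  have : dhN i (fun t => P (i.succAbove t) / P i) (f j) = 0 := h0
  rw [this, map_zero]

/-- **The integrals near a point different from the origin.** -/
theorem lp_chart (hScale : StScale) (hDiff : StDiff) (φ : ℚ_[p] →+* ℂ) {r : ℕ}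
    (f : Fin r → MvPolynomial (Fin (n + 1)) ℚ_[p]) {d : ℕ} (hf : ∀ j, (f j).IsHomogeneous d)
    (P : Fin (n + 1) → ℚ_[p]) (i : Fin (n + 1)) (hi : P i ≠ 0) (hL0 : LPF φ (hN i P f) 0)
    (m : ℂ → ℕ∞) (hm : ∀ T, 1 < ‖T‖ → mS φ (hN i P f) 0 T ≤ m T) : LP m (nrm f) P := by
  classical
  have hL1 : LP m (nrm (hN i P f)) 0 := LP.mono' hm hL0
  have ha : P i ^ d ≠ 0 := pow_ne_zero _ hi
  have hL2 := hScale p (nrm (hN i P f)) (siz_nrm _) m 0 (P i ^ d) ha hL1
  have hg0 : (fun t => gN i P t P) = 0 := by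
    funext t
    unfold gN
    rw [div_eq_mul_inv, sub_self]
    rfl
  refine hDiff p n (gN i P) (lN i P) i.succAbove (nrm f) (fun y => ‖P i ^ d‖ * nrm (hN i P f) y) P
    m (siz_smul (siz_nrm _) _) (gN_deriv i P hi) (lN_det i P hi) ?_ ?_
  · refine (near_norm i P hi).mono fun x hx => ?_
    have hxi : x i ≠ 0 := by
      intro h0
      rw [h0, norm_zero] at hx
      exact hi (norm_eq_zero.1 hx.symm)
    have h1 : ∀ j, eval x (f j) = x i ^ d * eval (fun t => gN i P t x) (hN i P f j) := by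
      intro j
      unfold hN
      rw [eval_dhN, ← eval_hom (f j) d (hf j)]
      refine congrArg (fun z : Fin (n + 1) → ℚ_[p] => eval z (f j)) ?_
      funext l
      refine Fin.succAboveCases i ?_ (fun t => ?_) l
      · rw [Fin.insertNth_apply_same, mul_one]
      · rw [Fin.insertNth_apply_succAbove]
        unfold gN
        rw [sub_add_cancel, mul_comm (x (i.succAbove t)), ← mul_assoc, mul_inv_cancel₀ hxi,
          one_mul]
    unfold nrm
    simp only [h1]
    rw [norm_smul', norm_pow, norm_pow, hx]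
  · rw [hg0]
    exact hL2

/-- the roots: the chart and the point, the chart and the origin -/
theorem mS_chart (φ : ℚ_[p] →+* ℂ) {r : ℕ} (f : Fin r → MvPolynomial (Fin (n + 1)) ℚ_[p]) {d : ℕ}
    (hf : ∀ j, (f j).IsHomogeneous d) (hne : ∃ j, f j ≠ 0) (P : Fin (n + 1) → ℚ_[p])
    (i : Fin (n + 1)) (hi : P i ≠ 0) (T : ℂ) :
    mS φ (hN i P f) 0 T ≤ mS φ f P T ∧ mS φ (hN i P f) 0 T ≤ mS φ f 0 T := by
  have hnem : ∃ j, map φ (f j) ≠ 0 := by
    obtain ⟨j, hj⟩ := hne
    exact ⟨j, fun h0 => hj ((map_eq_zero_iff _ (map_injective φ φ.injective)).1 h0)⟩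
  have h1 : ∀ α, SF (fun j => map φ (hN i P f j)) (fun l => φ ((0 : Fin n → ℚ_[p]) l)) α →
      SF (fun j => map φ (f j)) (fun l => φ (P l)) α ∧ SF (fun j => map φ (f j)) 0 α := by
    intro α hα
    rw [map_zero', map_hN] at hα
    exact sf_formN (fun j => map φ (f j)) (fun j => (hf j).map φ) hnem i (fun l => φ (P l))
      ((map_ne_zero φ).2 hi) α hα
  refine ⟨mS_le φ _ _ _ _ (fun α hα => (h1 α hα).1) T, mS_le φ _ _ _ _ (fun α hα => ?_) T⟩
  rw [map_zero' φ (σ := Fin (n + 1))]
  exact (h1 α hα).2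

/-- the product family -/
noncomputable def prN {r : ℕ} (q : Fin r → MvPolynomial (Fin n) ℚ_[p]) (j : Fin r) :
    MvPolynomial (Fin (1 + n)) ℚ_[p] :=
  rename (Fin.castAdd n) (X 0 : MvPolynomial (Fin 1) ℚ_[p]) * rename (Fin.natAdd 1) (q j)

/-- the roots of the product -/
theorem sf_prN (φ : ℚ_[p] →+* ℂ) {r : ℕ} (q : Fin r → MvPolynomial (Fin n) ℚ_[p])
    (hq : ∃ j, q j ≠ 0) (α : ℂ) (h : α = -1 ∨ SF (fun j => map φ (q j)) 0 α) :
    SF (fun j => map φ (prN q j)) 0 α := by
  classical
  have hne' : ∃ j, map φ (q j) ≠ 0 := by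
    obtain ⟨j, hj⟩ := hq
    exact ⟨j, fun h => hj ((map_injective φ φ.injective) (by rw [h, map_zero]))⟩
  have hx : SF (fun _ : Fin 1 => (X 0 : MvPolynomial (Fin 1) ℂ)) 0 (-1) := by
    have h1 := sf_rel_root (Finset.univ : Finset (Fin 1)) Finset.univ_nonempty
      (fun _ : Fin 1 => (X 0 : MvPolynomial (Fin 1) ℂ)) 1 one_pos (fun j => ?_) ⟨fun _ => 0, ?_⟩
    · simpa using h1
    · unfold HT
      have h2 := isWeightedHomogeneous_X ℂ (fun i : Fin 1 => if i ∈ (Finset.univ : Finset (Fin 1))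
        then 1 else 0) 0
      simpa using h2
    · have : Unique ((Finset.univ : Finset (Fin 1)) : Type) :=
        { default := ⟨0, Finset.mem_univ _⟩
          uniq := fun a => Subtype.ext (Subsingleton.elim _ _) }
      rw [Matrix.det_unique, Matrix.of_apply]
      have h2 : ((default : (Finset.univ : Finset (Fin 1))) : Fin 1) = 0 := Subsingleton.elim _ _
      rw [h2, pderiv_X_self]
      exact one_ne_zero
  have h0 : SF (fun _ : Fin 1 => (X 0 : MvPolynomial (Fin 1) ℂ)) 0 α ∨
      SF (fun j => map φ (q j)) 0 α := by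
    rcases h with h | h
    · left
      rw [h]
      exact hx
    · right
      exact h
  have h1 := sf_mulF (n := 1) (r := 1) (n' := n) (r' := r)
    (fun _ : Fin 1 => (X 0 : MvPolynomial (Fin 1) ℂ)) (fun j => map φ (q j))
    ⟨0, X_ne_zero _⟩ hne' 0 0 α h0
  refine sf_equiv (Equiv.refl (Fin (1 + n)))
    (finProdFinEquiv.symm.trans (Equiv.uniqueProd (Fin r) (Fin 1)))
    (mulF (fun _ : Fin 1 => (X 0 : MvPolynomial (Fin 1) ℂ)) (fun j => map φ (q j))) _ (fun j => ?_)
    0 α ?_
  · unfold prN mulF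
    rw [map_mul, map_rename, map_rename, map_X]
    simp only [Equiv.trans_apply, Equiv.uniqueProd_apply, Equiv.coe_refl, rename_id_apply]
  · have h2 : (Sum.elim 0 0 ∘ finSumFinEquiv.symm : Fin (1 + n) → ℂ) = 0 :=
      Pool.Agent.Q57.MD.elim_zero'
    rw [h2] at h1
    exact h1

/-- products of a coordinate and of a family in the other coordinates -/
theorem lpf_prN (hMul : StMul) (hX1 : StX1) (φ : ℚ_[p] →+* ℂ) {r : ℕ}
    (q : Fin r → MvPolynomial (Fin n) ℚ_[p]) (hq : ∃ j, q j ≠ 0) (hl : LPF φ q 0) :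
    LPF φ (prN q) 0 := by
  classical
  have hT : ∀ T : ℂ, 1 < ‖T‖ → (fun T : ℂ => if T = (p : ℂ) then (1 : ℕ∞) else 0) T +
      mS φ q 0 T ≤ mS φ (prN q) 0 T := by
    intro T _
    by_cases hT : T = (p : ℂ)
    · have h1 : mS φ (prN q) 0 T = ⊤ := by
        unfold mS
        rw [if_pos]
        rw [map_zero', hT, Pool.Agent.Q38.QP.rr_self]
        exact sf_prN φ q hq _ (Or.inl rfl)
      rw [h1]
      exact le_top
    · simp only [if_neg hT, zero_add]
      refine mS_le φ q _ 0 0 (fun α hα => ?_) T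
      rw [map_zero'] at hα ⊢
      exact sf_prN φ q hq _ (Or.inr hα)
  have h := hMul p (fun x : Fin 1 → ℚ_[p] => ‖x 0‖) (nrm q) 0 _ _ _ (siz_coord 0) (siz_nrm q) hT
    (hX1 p) hl
  have e : (nrm (prN q)) = fun x => ‖x (Fin.castAdd n 0)‖ * nrm q (fun i => x (Fin.natAdd 1 i)) := by
    funext x
    unfold nrm
    rw [← norm_smul]
    congr 1
    funext j
    unfold prN
    rw [map_mul, eval_rename, eval_rename, eval_X]
    rfl
  unfold LPF
  rw [e]
  exact h

/-- a vector where all the derivatives vanish is in the kernel of the matrix -/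
theorem ker_of_pderiv {K : Type} [Field K] [CharZero K] {m : ℕ} (f : MvPolynomial (Fin m) K)
    (hf : f.IsHomogeneous 2) (v : Fin m → K) (hv : ∀ i, eval v (pderiv i f) = 0) :
    (qm f).mulVec v = 0 := by
  funext i
  have h3 : (pderiv i f).IsHomogeneous 1 := hf.pderiv
  have h4 := h3.sum_X_mul_pderiv
  rw [one_smul] at h4
  have h5 : ∀ k, pderiv k (pderiv i f) = C (coeff 0 (pderiv k (pderiv i f))) := fun k =>
    totalDegree_eq_zero_iff_eq_C.1 ((totalDegree_zero_iff_isHomogeneous _).2 (h3.pderiv))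
  have h6 := congrArg (eval v) h4
  rw [hv i, map_sum] at h6
  simp only [map_mul, eval_X] at h6
  simp only [Matrix.mulVec, dotProduct, qm, Matrix.of_apply, Pi.zero_apply]
  have h7 : ∀ k, (2 : K)⁻¹ * coeff 0 (pderiv i (pderiv k f)) * v k =
      (2 : K)⁻¹ * (v k * eval v (pderiv k (pderiv i f))) := by
    intro k
    rw [pd_comm i k, h5 k, eval_C]
    rw [coeff_C]
    simp only [if_true]
    ring
  simp only [h7]
  rw [← Finset.mul_sum, h6, mul_zero]

/-- a common vertex -/
theorem forms_kerN (hAff : StAff) (hDiff : StDiff) (hQ3 : StQ3) (φ : ℚ_[p] →+* ℂ) {r : ℕ}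
    (f : Fin r → MvPolynomial (Fin 4) ℚ_[p]) (hne : ∃ j, f j ≠ 0)
    (hf : ∀ j, (f j).IsHomogeneous 2) (v : Fin 4 → ℚ_[p]) (hv0 : v ≠ 0)
    (hv : ∀ j, (qm (f j)).mulVec v = 0) : LPF φ f 0 := by
  obtain ⟨M, hM, hMv⟩ := exists_colN (n := 3) v hv0
  refine hAff p φ f 0 M hM hne ?_
  rw [aff_zero]
  set h : Fin r → MvPolynomial (Fin 3) ℚ_[p] := fun j =>
    aeval (lin (Matrix.of fun i k => M i (Fin.castSucc k) : Matrix (Fin 4) (Fin 3) ℚ_[p])) (f j)
    with hh
  have he : (fun j => aeval (lin M) (f j)) =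
      fun j => rename (Fin.castSucc : Fin 3 → Fin 4) (h j) := by
    funext j
    exact quad_kerN (f j) (hf j) M (by rw [hMv]; exact hv j)
  have hne2 : ∃ j, h j ≠ 0 := by
    obtain ⟨j, hj⟩ := hne
    refine ⟨j, fun h0 => hj ?_⟩
    have h1 : aeval (lin M) (f j) = 0 := by
      have h2 : aeval (lin M) (f j) = rename (Fin.castSucc : Fin 3 → Fin 4) (h j) := congrFun he j
      rw [h2, h0, map_zero]
    exact lin_inj M hM (f j) h1
  rw [he]
  refine lpf_rename hDiff φ _ (Fin.castSucc_injective 3) h hne2 (hQ3 p φ h hne2 (fun j => ?_) 0)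
  exact td_aeval _ (fun i => td_lin _ i) _ (hf j).totalDegree_le

/-- **Step R5**: the local `p`-adic statement for quadratic forms in four variables. -/
theorem qp_q4 : Pool.Agent.Q57.QP.StDiff → StFree → StScale → Pool.Agent.Q57.QP.StUnit → StCone →
    StMul → StAff → StX1 → StQ3 → StRoot4 → StQ4 := by
  classical
  intro hDiff _ hScale _ hCone hMul hAff hX1 hQ3 hRoot p _ φ r f hne hf P
  -- the points different from the origin
  have key : ∀ P : Fin 4 → ℚ_[p], P ≠ 0 → LPF φ f P ∧ LP (mS φ f 0) (nrm f) P := by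
    intro P hP
    obtain ⟨i, hi⟩ : ∃ i, P i ≠ 0 := by
      by_contra hcon
      push Not at hcon
      exact hP (funext hcon)
    have hL0 : LPF φ (hN i P f) 0 := hQ3 p φ (hN i P f) (hN_ne φ i P f hf hne)
      (fun j => td_dhN i _ (f j) (hf j).totalDegree_le) 0
    exact ⟨lp_chart hScale hDiff φ f hf P i hi hL0 _ fun T _ => (mS_chart φ f hf hne P i hi T).1,
      lp_chart hScale hDiff φ f hf P i hi hL0 _ fun T _ => (mS_chart φ f hf hne P i hi T).2⟩
  by_cases hP : P = 0
  · subst hP
    by_cases hv : ∃ v : Fin 4 → ℚ_[p], v ≠ 0 ∧ ∀ j i, eval v (pderiv i (f j)) = 0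
    · obtain ⟨v, hv0, hv⟩ := hv
      exact forms_kerN hAff hDiff hQ3 φ f hne hf v hv0 fun j => ker_of_pderiv (f j) (hf j) v (hv j)
    · have hv2 : ∀ v : Fin 4 → ℚ_[p], (∀ j i, eval v (pderiv i (f j)) = 0) → v = 0 := by
        intro v h
        by_contra h0
        exact hv ⟨v, h0, h⟩
      rcases hRoot φ f hf hv2 with hroot | ⟨U, m, hU, hm1, -, hm3⟩
      · refine hCone p Finset.univ ⟨0, Finset.mem_univ _⟩ 2 two_pos (nrm f) (siz_nrm f)
          (fun a x => ?_) (mS φ f 0) (mS φ f 0) (fun T0 hT0 => ?_) fun P hP0 _ => (key P hP0).2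
        · simp only [Finset.mem_univ, if_true]
          unfold nrm
          simp only [eval_hom _ 2 (hf _)]
          rw [norm_smul', norm_pow]
        · by_cases h : T0 ^ 2 = (p : ℂ) ^ (Finset.univ : Finset (Fin 4)).card
          · have h1 : mS φ f 0 T0 = ⊤ := by
              unfold mS
              rw [if_pos]
              have h2 : T0 ^ 2 = (p : ℂ) ^ (3 + 1) := by
                rw [h, Finset.card_univ, Fintype.card_fin]
              rw [rr_cone 3 2 two_pos T0 h2, map_zero']
              have h4 : (-(((3 : ℕ) : ℂ) + 1) / ((2 : ℕ) : ℂ)) = -2 := by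
                norm_num
              rw [h4]
              exact hroot
            rw [h1]
            exact le_top
          · rw [if_neg h, zero_add]
      · refine hAff p φ f 0 U hU hne ?_
        rw [aff_zero]
        have he : (fun j => aeval (lin U) (f j)) = prN m := by
          funext j
          have h1 : aeval (lin U) (f j) = X 0 * rename Fin.succ (m j) := hm3 j
          rw [h1]
          unfold prN
          rw [rename_X]
          congr 2
          congr 1
          funext t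
          ext
          simp [Nat.add_comm]
        have hm0 : ∃ j, m j ≠ 0 := by
          obtain ⟨j, hj⟩ := hne
          refine ⟨j, fun h0 => hj (lin_inj U hU (f j) ?_)⟩
          have h4 : aeval (lin U) (f j) = prN m j := congrFun he j
          rw [h4, prN, h0, map_zero, mul_zero]
        rw [he]
        exact lpf_prN hMul hX1 φ m hm0 (hQ3 p φ m hm0
          (fun j => (hm1 j).totalDegree_le.trans one_le_two) 0)
  · exact (key P hP).1

end main

end Pool.Agent.Q38.QM
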